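import Pool.Agent.NNe.Chk
import Pool.Agent.NNe.Slots

set_option linter.all false
set_option maxRecDepth 1000000
namespace Pool.Agent.NNr.R11_4_9_10

open Pool.Agent.NNe

noncomputable def SI0_0 : Nat := (nat_lit 0x300c020080200801004010040100401000000000000000)
noncomputable def SW0_0 : Nat := (nat_lit 0x3000a00b0050024008012008003c01c008003800c02200d0030008002000)
noncomputable def RV0_0 : Nat := (nat_lit 0x8a0c108a01708a02f18201e10000908a03708a05c08a04b18202510000e20400e18202808a05108a07e08a08a08a093306000204000182000)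
noncomputable def CO0_0 : Nat := (nat_lit 0x297850290c50255850255810255800251c5016ac50166450166410166400156820156810152c5012b05012745011785011003011002011001)
noncomputable def Y0_0_0_1 : Nat := (nat_lit 0x70000000000200000000007000000000020000000007f00000000032000000000000000000000000000000069000000000000000000007b00000000032)
noncomputable def Y0_0_2_3 : Nat := (nat_lit 0x300000000002000000000030000000000200000000003000000000000000000000300000000000)
noncomputable def C0_0 : Cd := (Cd.mk (nat_lit 19) (nat_lit 5) (nat_lit 320) SI0_0 SW0_0 RV0_0 CO0_0 (Sl.cons (Sd.mk (nat_lit 4) (nat_lit 4) (nat_lit 0) (nat_lit 6) (Sb.cons (nat_lit 4) (nat_lit 0) (nat_lit 4) (Sb.cons (nat_lit 8) (nat_lit 4) (nat_lit 2) Sb.nil)) (Bl.r Y0_0_0_1 (nat_lit 1) Bl.nil)) (Sl.cons (Sd.mk (nat_lit 5) (nat_lit 4) (nat_lit 6) (nat_lit 7) (Sb.cons (nat_lit 4) (nat_lit 0) (nat_lit 3) (Sb.cons (nat_lit 8) (nat_lit 3) (nat_lit 4) Sb.nil)) (Bl.c Y0_0_0_1 (nat_lit 12) (nat_lit 0) Bl.nil)) (Sl.cons (Sd.mk (nat_lit 9)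 (nat_lit 8) (nat_lit 13) (nat_lit 4) (Sb.cons (nat_lit 4) (nat_lit 0) (nat_lit 4) Sb.nil) (Bl.r Y0_0_2_3 (nat_lit 3) Bl.nil)) (Sl.cons (Sd.mk (nat_lit 10) (nat_lit 8) (nat_lit 17) (nat_lit 2) (Sb.cons (nat_lit 4) (nat_lit 0) (nat_lit 2) Sb.nil) (Bl.c Y0_0_2_3 (nat_lit 8) (nat_lit 2) Bl.nil)) Sl.nil)))))
noncomputable def SI0_1 : Nat := (nat_lit 0x1405014050140501405014040100401004010040100400c0300c0300c0300c0300c02008020080200802008010040100401004010040100000000000000000000)
noncomputable def SW0_1 : Nat := (nat_lit 0x1980c805402100c004001e00e00380c4052028010007c03c0170068018060027013009403a01c00b003000a02f012006c02a014005801000602e01680b004601a009802801200201580880320120088020002000)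
noncomputable def RV0_1 : Nat := (nat_lit 0x20400618200908a0b908a0c208a01808a00f20400918200e08a01308a04318201c10000708a03018201f10000a08a03808a03f08a03308a05d08a04c18202610000f20400f18202908a05208a05908a04e08a07f08a08b08a09420400118200108a09d08a00018200308a06320401218202c08a0b408a0bd08a06d20401618203208a06908a07908a08508a08f88a02198201108a098982014900000)
noncomputable def CO0_1 : Nat := (nat_lit 0x2a80202a80102a7450297850290c50288850288820288810280c50269c50265410265400255850255810255800251c50249c50241c5016ac50166450166410166400156820156810152c5014ac50142c5012b05012745011785011002011001010b8501004501004100aa0500aa0200aa0100a7450097850092c5008a82008a810082c5002b05002745001785001105001101000b85000141000140)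
noncomputable def Y0_1_1_0 : Nat := (nat_lit 0xff00000000000000000000f400000000010000000000f500000000001000000000ff00000000001000000000ff00000000001000000000ff00000000000000000000f000000000010000000000f000000000000000000000f800000000000)
noncomputable def Y0_1_2_3 : Nat := (nat_lit 0x1ff00000000000000000001ff00000000000000000001e3000000000000000000018300000000183000000001a300000000000000000001ff00000000000000000001ff00000000030000000001a700000000000)
noncomputable def Y0_1_4_5 : Nat := (nat_lit 0x3f0000000000000000000039000000000000000000003b0000000000a000000001ff000000000000000000007900000000000000000000fb0000000000a000000001ff00000000000000000001ff00000000000000000001ff00000000000)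
noncomputable def C0_1 : Cd := (Cd.mk (nat_lit 52) (nat_lit 6) (nat_lit 546) SI0_1 SW0_1 RV0_1 CO0_1 (Sl.cons (Sd.mk (nat_lit 0) (nat_lit 0) (nat_lit 0) (nat_lit 8) (Sb.cons (nat_lit 0) (nat_lit 0) (nat_lit 3) (Sb.cons (nat_lit 4) (nat_lit 3) (nat_lit 3) (Sb.cons (nat_lit 8) (nat_lit 6) (nat_lit 2) Sb.nil))) (Bl.c Y0_1_1_0 (nat_lit 18) (nat_lit 1) Bl.nil)) (Sl.cons (Sd.mk (nat_lit 2) (nat_lit 0) (nat_lit 8) (nat_lit 9) (Sb.cons (nat_lit 0) (nat_lit 0) (nat_lit 3) (Sb.cons (nat_lit 4) (nat_lit 3) (nat_lit 2) (Sb.cons (nat_lit 8) (nat_lit 5) (nat_lit 4) Sb.nil))) (Bl.r Y0_1_1_0 (nat_lit 0) Bl.nil)) (Sl.cons (Sd.mk (nat_lit 4) (nat_lit 4) (nat_lit 17) (nat_lit 8) (Sb.cons (nat_lit 0) (nat_lit 0) (nat_lit 3) (Sb.cons (nat_lit 4) (nat_lit 3) (nat_lit 3) (Sb.cons (nat_lit 8) (nat_lit 6) (nat_lit 2) Sb.nil))) (Bl.r Y0_1_2_3 (nat_lit 3) Bl.nil)) (Sl.cons (Sd.mk (nat_lit 5) (nat_lit 4) (nat_lit 25) (nat_lit 9) (Sb.cons (nat_lit 0) (nat_lit 0) (nat_lit 2) (Sb.cons (nat_lit 4) (nat_lit 2) (nat_lit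 3) (Sb.cons (nat_lit 8) (nat_lit 5) (nat_lit 4) Sb.nil))) (Bl.c Y0_1_2_3 (nat_lit 16) (nat_lit 2) Bl.nil)) (Sl.cons (Sd.mk (nat_lit 9) (nat_lit 8) (nat_lit 34) (nat_lit 9) (Sb.cons (nat_lit 0) (nat_lit 0) (nat_lit 2) (Sb.cons (nat_lit 4) (nat_lit 2) (nat_lit 4) (Sb.cons (nat_lit 8) (nat_lit 6) (nat_lit 3) Sb.nil))) (Bl.r Y0_1_4_5 (nat_lit 5) Bl.nil)) (Sl.cons (Sd.mk (nat_lit 10) (nat_lit 8) (nat_lit 43) (nat_lit 9) (Sb.cons (nat_lit 0) (nat_lit 0) (nat_lit 4) (Sb.cons (nat_lit 4) (nat_lit 4) (nat_lit 2) (Sb.cons (nat_lit 8) (nat_lit 6) (nat_lit 3) Sb.nil))) (Bl.c Y0_1_4_5 (nat_lit 18) (nat_lit 4) Bl.nil)) Sl.nil)))))))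
noncomputable def SI0_2 : Nat := (nat_lit 0xc0300c0300c0300c020080200802004010040100401004000000000000)
noncomputable def SW0_2 : Nat := (nat_lit 0xb805802000b0050024008015007803801000300a004c02400d00380180040110060014002000)
noncomputable def RV0_2 : Nat := (nat_lit 0x20400718200a08a0ba08a01020400a18200f08a01408a04418201d10000808a04008a03408a06420401318202d08a0b520401718203308a06a08a07a08a08608a099982015900001)
noncomputable def CO0_2 : Nat := (nat_lit 0x2a80202a80102a7450288850288820288810280c50269c50265410265400249c50241c500aa0500aa0200aa0100a745008a82008a810082c5002b05002745000b85000141000140)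
noncomputable def Y0_2_1_0 : Nat := (nat_lit 0x1f0000000001e00000000000000000000000000000001c000000000000000000001f0000000000000000000000000000000000000000001c000000000000000000001f0000000001e)
noncomputable def Y0_2_2_3 : Nat := (nat_lit 0x3b0000000003a000000000190000000000900000000019000000000000000000003b0000000003a0000000003b0000000003a)
noncomputable def C0_2 : Cd := (Cd.mk (nat_lit 24) (nat_lit 7) (nat_lit 772) SI0_2 SW0_2 RV0_2 CO0_2 (Sl.cons (Sd.mk (nat_lit 0) (nat_lit 0) (nat_lit 0) (nat_lit 5) (Sb.cons (nat_lit 0) (nat_lit 0) (nat_lit 3) (Sb.cons (nat_lit 8) (nat_lit 3) (nat_lit 2) Sb.nil)) (Bl.c Y0_2_1_0 (nat_lit 14) (nat_lit 1) Bl.nil)) (Sl.cons (Sd.mk (nat_lit 2) (nat_lit 0) (nat_lit 5) (nat_lit 7) (Sb.cons (nat_lit 0) (nat_lit 0) (nat_lit 3) (Sb.cons (nat_lit 8) (nat_lit 3) (nat_lit 4) Sb.nil)) (Bl.r Y0_2_1_0 (nat_lit 0) Bl.nil)) (Sl.cons (Sd.mk (nat_lit 9) (nat_lit 8) (nat_lit 12) (nat_lit 5) (Sb.cons (nat_lit 0) (nat_lit 0) (nat_lit 2) (Sb.cons (nat_lit 8) (nat_lit 2)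 (nat_lit 3) Sb.nil)) (Bl.r Y0_2_2_3 (nat_lit 3) Bl.nil)) (Sl.cons (Sd.mk (nat_lit 10) (nat_lit 8) (nat_lit 17) (nat_lit 7) (Sb.cons (nat_lit 0) (nat_lit 0) (nat_lit 4) (Sb.cons (nat_lit 8) (nat_lit 4) (nat_lit 3) Sb.nil)) (Bl.c Y0_2_2_3 (nat_lit 10) (nat_lit 2) Bl.nil)) Sl.nil)))))
noncomputable def SI0_3 : Nat := (nat_lit 0x300c030080200801004010000000000)
noncomputable def SW0_3 : Nat := (nat_lit 0x9003000c018005001002c010001005001c008000)
noncomputable def RV0_3 : Nat := (nat_lit 0x8a05308a05a08a04f08a09508a09e08a00108a0be08a06e08a06b08a09088a02208a09a900002)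
noncomputable def CO0_3 : Nat := (nat_lit 0x152c5014ac50142c5011785010b850100450097850092c50082c5001785001105000b85000140)
noncomputable def Y0_3_1_0 : Nat := (nat_lit 0xe000000000000000000000e000000000040000000000e00000000004)
noncomputable def Y0_3_2_3 : Nat := (nat_lit 0x30000000000000000000007000000000000000000000700000000007)
noncomputable def C0_3 : Cd := (Cd.mk (nat_lit 13) (nat_lit 9) (nat_lit 39) SI0_3 SW0_3 RV0_3 CO0_3 (Sl.cons (Sd.mk (nat_lit 0) (nat_lit 0) (nat_lit 0) (nat_lit 4) (Sb.cons (nat_lit 0) (nat_lit 0) (nat_lit 2) (Sb.cons (nat_lit 4) (nat_lit 2) (nat_lit 2) Sb.nil)) (Bl.c Y0_3_1_0 (nat_lit 6) (nat_lit 1) Bl.nil)) (Sl.cons (Sd.mk (nat_lit 2) (nat_lit 0) (nat_lit 4) (nat_lit 3) (Sb.cons (nat_lit 0) (nat_lit 0) (nat_lit 1) (Sb.cons (nat_lit 4) (nat_lit 1) (nat_lit 2) Sb.nil)) (Bl.r Y0_3_1_0 (nat_lit 0) Bl.nil)) (Sl.cons (Sd.mk (nat_lit 4) (nat_lit 4) (nat_lit 7) (nat_lit 3) (Sb.cons (nat_lit 0) (nat_lit 0) (nat_lit 2) (Sb.cons (nat_lit 4) (nat_lit 2) (nat_lit 1)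 Sb.nil)) (Bl.r Y0_3_2_3 (nat_lit 3) Bl.nil)) (Sl.cons (Sd.mk (nat_lit 5) (nat_lit 4) (nat_lit 10) (nat_lit 3) (Sb.cons (nat_lit 0) (nat_lit 0) (nat_lit 2) (Sb.cons (nat_lit 4) (nat_lit 2) (nat_lit 1) Sb.nil)) (Bl.c Y0_3_2_3 (nat_lit 6) (nat_lit 2) Bl.nil)) Sl.nil)))))
noncomputable def SI0_4 : Nat := (nat_lit 0xc0300802004010040000000)
noncomputable def SW0_4 : Nat := (nat_lit 0xa0020020004012007000002000c003)
noncomputable def RV0_4 : Nat := (nat_lit 0x8a01108a01508a04108a03508a06508a0b608a06c08a07b08a08708a09b)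
noncomputable def CO0_4 : Nat := (nat_lit 0x288850280c50249c50241c500aa0500a7450082c5002b05002745000b85)
noncomputable def C0_4 : Cd := (Cd.mk (nat_lit 10) (nat_lit 10) (nat_lit 265) SI0_4 SW0_4 RV0_4 CO0_4 (Sl.cons (Sd.mk (nat_lit 0) (nat_lit 0) (nat_lit 0) (nat_lit 3) (Sb.cons (nat_lit 0) (nat_lit 0) (nat_lit 1) (Sb.cons (nat_lit 8) (nat_lit 1) (nat_lit 2) Sb.nil)) Bl.nil) (Sl.cons (Sd.mk (nat_lit 2) (nat_lit 0) (nat_lit 3) (nat_lit 3) (Sb.cons (nat_lit 0) (nat_lit 0) (nat_lit 1) (Sb.cons (nat_lit 8) (nat_lit 1) (nat_lit 2) Sb.nil)) Bl.nil) (Sl.cons (Sd.mk (nat_lit 9) (nat_lit 8) (nat_lit 6) (nat_lit 2) (Sb.cons (nat_lit 0) (nat_lit 0) (nat_lit 2) Sb.nil) Bl.nil) (Sl.cons (Sd.mk (nat_lit 10) (nat_lit 8) (nat_lit 8) (nat_lit 2) (Sb.cons (nat_lit 0) (nat_lit 0) (nat_lit 2) Sb.nil) Bl.nil) Sl.nil)))))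
noncomputable def SI0_5 : Nat := (nat_lit 0x200802008020080200802008020080200802008020080200802008020080200801c0701c0701c0701c0701c0701c0701806018060180601806018060180601806018060180601806018060180601806018060180601806018060180601806018060180601805014050140501405014050140501405014050140501405014050100401004010040100401004010040100401004010040100401004010040100400c0300c0300c0300c0300c0300c0300c0300c0300c0300c0300c0300c0300c0300c0200802008020080200802008020080100401004010040100401004010040100401004010040100401000000000000000000000000000000)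
noncomputable def SW0_5 : Nat := (nat_lit 0x3b01d40be06102f01740b806002d81680b20450238110086046021010408003f01600ac04001f00580280e807302c015c07c03d01500a403c01d00480200e007203781b80da07103601ac0d406902a01580a605202881540a004f02700e807803901c00dc07603601a80d0066028013806803801900c005c03601600a8050026007003031c18c0ad05602801380a104f827813a09b04d0264130032013004802201000780141880c0062830c1840c105f82f817a0ab055025812409704a8250126091048023c062030017809401c00405d82e01780ba05c82dc16c0b505a02a415008d044823811808b045022010e08604281a009a04c02580340060b3059029c14c084041819c09400c00100040000b1058029414808103e820810007f03f01f00f607a03c81980ca064031812405c02405782b81460a203c01dc0c4048016808c044021)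
noncomputable def RV0_5 : Nat := (nat_lit 0x8a07608a02008a0bc08a07408a06818203010001208a01e08a00d30600618200c08a0c508a07320401518203108a01d08a00e38800420400818200d08a07208a01c08a07508a01f08a07108a01b08a06108a04708a05808a03e08a05708a03d08a05608a03c08a06008a04608a05508a03b08a08288a02c88a024b0600898201308a00b38800030600120400218200208a08e88a02ab0600998201690000308a00908a00330600318200508a09788a02988a02598201790000408a00808a00438800120400318200688a02808a00708a0a188a02b88a02698201890000508a00a08a00538800220400418200788a02708a00608a0c708a0b108a0c408a0bb08a0b308a0af08a01a08a00c30600518200b38800330600420400518200808a0c308a01908a01238800520400b18201008a01608a0ad08a0a508a04508a03218202110000c08a02e30600b18201a08a0ab08a0a908a0a708a0a308a03a30600c18201b10000608a02d30600a18201908a03118202010000b08a03908a04208a03608a0ac08a0a408a05f20401018202a08a04938800720400d18202308a0aa08a0a808a0a608a0a208a05408a04a18202410000d08a04838800620400c18202208a05e08a04d18202710001008a05b08a05008a0a008a08108a09608a08d08a08408a07808a08008a08c08a09f08a00230600218200408a0c608a0b008a0c008a0b808a0b208a0ae08a07008a06718202f10001108a06238800820401118202b08a06638800920401418202e08a0b708a0bf08a06f08a09c08a07d08a09208a08908a08308a07708a07c08a08808a09188a023b06007982012)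
noncomputable def CO0_5 : Nat := (nat_lit 0x3aac503a8c503a74503a6c503a64503a64103a64003a4c503a44503a44303a4410397850396c50396820396810394c50394850394840394820394810392c50390c5038ac50388c50382c50380c5036ac50369c50366c50365c50356c50355c50352c50351c5034ac50349c50342c50341c5032b050329c50329050329030329010328c50328040328030328020328010327450325c50325430325410325400324c50324450324430324410317850315c50315850315810315800314c50314850314840314820314810311c50310c5030b850309c50309850309810309800308c50308850308840308820308810301c50300c502bb8502bb0502b78502b74502b34502b30502b0c502b04502b04302b04102b00402b00302b00202b0010297850290c50288850288840288820288810280c5027b85027b050279c50279850279810279800279050279030279010277850277450273450273050271c50271430271410271400271050271030271010255850255810255800251c50249c50241c5017b85017b05017ac5017a82017a81017a05017a04017a02017a010177850177450173450173050172c5017245017241017240017205017204017202017201016ac5016645016641016640014ac50142c5013b85013b05013785013745013345013305012b05012745010b8501004501004301004100bb8500bb0500b78500b74500b34500b30500b2c500b24500b24100b24000b20500b20400b20200b20100aa0500aa0400aa0200aa0100a7450097850092c5003b85003b05003785003745003345003305002b05002745001785001105001103001101)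
noncomputable def Y0_5_1_0 : Nat := (nat_lit 0x3f000000000040000000003f0000000003d0000000003f000000000040000000003f000000000390000000003f000000000390000000003f0000000003d0000000003f000000000000000000003f000000000020000000003d000000000000000000003d000000000000000000003f0000000000200000000000000000000000000000003d000000000010000000003d0000000000000000000fcf00000000002000000000000000000000000000000fcd00000000fc100000000fcd00000000fc000000000fcf000000005c000000000ff0000000005c000000000ff000000000000)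
noncomputable def Y0_5_2_3 : Nat := (nat_lit 0x3f000000000370000000003f000000000370000000003f000000000370000000003f000000000370000000003f000000000370000000003f0000000003700007effec30000088008000007effec30000088008000007effefc0000088008000007effefc000008800800000723f2300000020121000007effefc00000880080)
noncomputable def Y0_5_4_5 : Nat := (nat_lit 0x77000000000000000000007700000000000000000000770000000000000000000077000000000040000000007700000000004000000000770000000000000000000077000000000040000000007100000000031000000000770000000000400000000077000000000000000000007700000000000000000000770000000000000000000077000000000000000000007700000000000000000000710000000003100000000077000000000000000000007700000000000000000000770000000000400000000071000000000310000000007700000000004000001ffb9700000001304000001fe99700000000104000001fe997000001f8000000001ffb9700000001200000001ffbe000000001200000001ffbe000000001200)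
noncomputable def Y0_5_6_6 : Nat := (nat_lit 0x40240200000000000000000000000000000000000000000000000000000000000000000000000000000000000000000000000000000000f82f820000028028000000000000000000000000000040240200000000000000004024020000040240200000402402000000000000000040240200000000000000000000000000000000000000000000000000000000000000000000000000000000000000000000000000000000f82f8200000280280000004024020000040240200000402402000000000000000040240200000000000200800004020000000000000000000000000000000000000000000000000000000000000000000000000000000000000000000000000007c1f0000f8210010000280200800004022008000040200000000000000000000002008000040220080000402200800004020000000000000000000000000000000007c1f0000f8210010000280200804020000000000000000000000000000000000000000000000000000000000000000000000000000000000000000000000000000007c1f0f8200010010280000200804020002008040200000000000000000000000002008040200020080402000200804020000000000000000000000000000000000007c1f0f8200010010280000)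
noncomputable def Y0_5_7_7 : Nat := (nat_lit 0xaa000000000000000000000000000000000000000000aa00000000000000000000000000000000000000000a0a00000000000000000000000000000000000000000a0a00000000000000000000000000000000000000000aa000000000000000000000000000000000000000000aa000000000000)
noncomputable def Y0_5_8_8 : Nat := (nat_lit 0x46d50000000024000000000000000000000000000000041500000000000000000046d5000000002400000000041500000000000000000004150000000000000000000415000000004150000000000000000000000000000000000000000000000000000000000000000000000000000000000000000000010400050000000000000001878005000000280000000104000500001040005000010400050000000000000000000000000000000000000000000000000000000000000000000000000000000000000000000000000000000000000000000000000000018780050000002800000000000000000000000000000187c6d00000002824000000000000000000000000000187c6d0000000282400000000000000000000000)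
noncomputable def C0_5 : Cd := (Cd.mk (nat_lit 200) (nat_lit 4) (nat_lit 4369) SI0_5 SW0_5 RV0_5 CO0_5 (Sl.cons (Sd.mk (nat_lit 0) (nat_lit 0) (nat_lit 0) (nat_lit 12) (Sb.cons (nat_lit 4) (nat_lit 0) (nat_lit 4) (Sb.cons (nat_lit 8) (nat_lit 4) (nat_lit 2) (Sb.cons (nat_lit 12) (nat_lit 6) (nat_lit 6) Sb.nil))) (Bl.c Y0_5_1_0 (nat_lit 42) (nat_lit 1) Bl.nil)) (Sl.cons (Sd.mk (nat_lit 2) (nat_lit 0) (nat_lit 12) (nat_lit 21) (Sb.cons (nat_lit 4) (nat_lit 0) (nat_lit 2) (Sb.cons (nat_lit 8) (nat_lit 2) (nat_lit 5) (Sb.cons (nat_lit 12) (nat_lit 7) (nat_lit 14) Sb.nil))) (Bl.r Y0_5_1_0 (nat_lit 0) Bl.nil)) (Sl.cons (Sd.mk (nat_lit 4) (nat_lit 4) (nat_lit 33) (nat_lit 12) (Sb.cons (nat_lit 0) (nat_lit 0) (nat_lit 4) (Sb.cons (nat_lit 8) (nat_lit 4) (nat_lit 2) (Sb.cons (nat_lit 12) (nat_lit 6) (nat_lit 6) Sb.nil))) (Bl.r Y0_5_2_3 (nat_lit 3) Bl.nil)) (Sl.cons (Sd.mk (nat_lit 5) (nat_lit 4) (nat_lit 45) (nat_lit 27) (Sb.cons (nat_lit 0) (nat_lit 0) (nat_lit 2) (Sb.cons (nat_lit 8) (nat_lit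 2) (nat_lit 4) (Sb.cons (nat_lit 12) (nat_lit 6) (nat_lit 21) Sb.nil))) (Bl.c Y0_5_2_3 (nat_lit 24) (nat_lit 2) Bl.nil)) (Sl.cons (Sd.mk (nat_lit 9) (nat_lit 8) (nat_lit 72) (nat_lit 26) (Sb.cons (nat_lit 0) (nat_lit 0) (nat_lit 2) (Sb.cons (nat_lit 4) (nat_lit 2) (nat_lit 4) (Sb.cons (nat_lit 12) (nat_lit 6) (nat_lit 20) Sb.nil))) (Bl.r Y0_5_4_5 (nat_lit 5) Bl.nil)) (Sl.cons (Sd.mk (nat_lit 10) (nat_lit 8) (nat_lit 98) (nat_lit 21) (Sb.cons (nat_lit 0) (nat_lit 0) (nat_lit 5) (Sb.cons (nat_lit 4) (nat_lit 5) (nat_lit 2) (Sb.cons (nat_lit 12) (nat_lit 7) (nat_lit 14) Sb.nil))) (Bl.c Y0_5_4_5 (nat_lit 52) (nat_lit 4) Bl.nil)) (Sl.cons (Sd.mk (nat_lit 12) (nat_lit 12) (nat_lit 119) (nat_lit 43) (Sb.cons (nat_lit 0) (nat_lit 0) (nat_lit 12) (Sb.cons (nat_lit 4) (nat_lit 12) (nat_lit 12) (Sb.cons (nat_lit 8) (nat_lit 24) (nat_lit 19) Sb.nil))) (Bl.r Y0_5_6_6 (nat_lit 6) (Bl.c Y0_5_6_6 (nat_lit 86) (nat_lit 6) Bl.nil))) (Sl.cons (Sd.mk (nat_lit 13) (nat_lit 12) (nat_lit 162) (nat_lit 12)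 (Sb.cons (nat_lit 0) (nat_lit 0) (nat_lit 4) (Sb.cons (nat_lit 4) (nat_lit 4) (nat_lit 4) (Sb.cons (nat_lit 8) (nat_lit 8) (nat_lit 4) Sb.nil))) (Bl.r Y0_5_7_7 (nat_lit 7) (Bl.c Y0_5_7_7 (nat_lit 24) (nat_lit 7) Bl.nil))) (Sl.cons (Sd.mk (nat_lit 14) (nat_lit 12) (nat_lit 174) (nat_lit 26) (Sb.cons (nat_lit 0) (nat_lit 0) (nat_lit 4) (Sb.cons (nat_lit 4) (nat_lit 4) (nat_lit 11) (Sb.cons (nat_lit 8) (nat_lit 15) (nat_lit 11) Sb.nil))) (Bl.r Y0_5_8_8 (nat_lit 8) (Bl.c Y0_5_8_8 (nat_lit 52) (nat_lit 8) Bl.nil))) Sl.nil))))))))))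
noncomputable def CL0 : Cl := (Cl.cons C0_0 (Cl.cons C0_1 (Cl.cons C0_2 (Cl.cons C0_3 (Cl.cons C0_4 (Cl.cons C0_5 Cl.nil))))))
noncomputable def ZL0_0 : Zl := (Zl.cons (nat_lit 0) (nat_lit 0) (nat_lit 6) (Zl.cons (nat_lit 17) (nat_lit 6) (nat_lit 8) (Zl.cons (nat_lit 0) (nat_lit 0) (nat_lit 0) (Zl.cons (nat_lit 7) (nat_lit 14) (nat_lit 3) (Zl.cons (nat_lit 0) (nat_lit 0) (nat_lit 0) (Zl.cons (nat_lit 33) (nat_lit 17) (nat_lit 12) Zl.nil))))))
noncomputable def ZZ0 : ZZ := (ZZ.cons ZL0_0 ZZ.nil)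
noncomputable def SI1_0 : Nat := (nat_lit 0x8020040100400)
noncomputable def SW1_0 : Nat := (nat_lit 0x60020028010002000)
noncomputable def RV1_0 : Nat := (nat_lit 0x8a02018200908a02a18200a18200b182000)
noncomputable def CO1_0 : Nat := (nat_lit 0x25585025581016645016641015681011001)
noncomputable def Y1_0_0_1 : Nat := (nat_lit 0xe0000)
noncomputable def C1_0 : Cd := (Cd.mk (nat_lit 6) (nat_lit 5) (nat_lit 320) SI1_0 SW1_0 RV1_0 CO1_0 (Sl.cons (Sd.mk (nat_lit 4) (nat_lit 4) (nat_lit 0) (nat_lit 1) (Sb.cons (nat_lit 4) (nat_lit 0) (nat_lit 1) Sb.nil) (Bl.r Y1_0_0_1 (nat_lit 1) Bl.nil)) (Sl.cons (Sd.mk (nat_lit 5) (nat_lit 4) (nat_lit 1) (nat_lit 3) (Sb.cons (nat_lit 4) (nat_lit 0) (nat_lit 1) (Sb.cons (nat_lit 8) (nat_lit 1) (nat_lit 2) Sb.nil)) (Bl.c Y1_0_0_1 (nat_lit 2) (nat_lit 0) Bl.nil)) (Sl.cons (Sd.mk (nat_lit 9) (nat_lit 8) (nat_lit 4) (nat_lit 2) (Sb.cons (nat_lit 4) (nat_lit 0) (nat_lit 2) Sb.nil) Bl.nil) Sl.nil))))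
noncomputable def SI1_1 : Nat := (nat_lit 0x50100400c0300c02008010040100000)
noncomputable def SW1_1 : Nat := (nat_lit 0x40058024014008001801800200c003800800a000)
noncomputable def RV1_1 : Nat := (nat_lit 0x18200410000110000210000420400708a02d20400008a00018200c08a05020400c88a015900000)
noncomputable def CO1_1 : Nat := (nat_lit 0x28881026540025580016640015682014ac501100201004500aa01009785008a82001105000140)
noncomputable def Y1_1_1_0 : Nat := (nat_lit 0x2000000008000000040000)
noncomputable def Y1_1_2_3 : Nat := (nat_lit 0x80000000c0000)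
noncomputable def Y1_1_4_5 : Nat := (nat_lit 0x8000000020000)
noncomputable def C1_1 : Cd := (Cd.mk (nat_lit 13) (nat_lit 6) (nat_lit 546) SI1_1 SW1_1 RV1_1 CO1_1 (Sl.cons (Sd.mk (nat_lit 0) (nat_lit 0) (nat_lit 0) (nat_lit 2) (Sb.cons (nat_lit 0) (nat_lit 0) (nat_lit 1) (Sb.cons (nat_lit 4) (nat_lit 1) (nat_lit 1) Sb.nil)) (Bl.c Y1_1_1_0 (nat_lit 6) (nat_lit 1) Bl.nil)) (Sl.cons (Sd.mk (nat_lit 2) (nat_lit 0) (nat_lit 2) (nat_lit 3) (Sb.cons (nat_lit 0) (nat_lit 0) (nat_lit 1) (Sb.cons (nat_lit 4) (nat_lit 1) (nat_lit 1) (Sb.cons (nat_lit 8) (nat_lit 2) (nat_lit 1) Sb.nil))) (Bl.r Y1_1_1_0 (nat_lit 0) Bl.nil)) (Sl.cons (Sd.mk (nat_lit 4) (nat_lit 4) (nat_lit 5) (nat_lit 2) (Sb.cons (nat_lit 0) (nat_lit 0) (nat_lit 1) (Sb.cons (nat_lit 4) (nat_lit 1) (nat_lit 1) Sb.nil)) (Bl.r Y1_1_2_3 (nat_lit 3) Bl.nil)) (Sl.cons (Sd.mk (nat_lit 5) (nat_lit 4) (nat_lit 7) (nat_lit 3) (Sb.cons (nat_lit 0) (nat_lit 0) (nat_lit 1) (Sb.cons (nat_lit 4) (nat_lit 1) (nat_lit 1) (Sb.cons (nat_lit 8) (nat_lit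 2) (nat_lit 1) Sb.nil))) (Bl.c Y1_1_2_3 (nat_lit 4) (nat_lit 2) Bl.nil)) (Sl.cons (Sd.mk (nat_lit 9) (nat_lit 8) (nat_lit 10) (nat_lit 2) (Sb.cons (nat_lit 4) (nat_lit 0) (nat_lit 1) (Sb.cons (nat_lit 8) (nat_lit 1) (nat_lit 1) Sb.nil)) (Bl.r Y1_1_4_5 (nat_lit 5) Bl.nil)) (Sl.cons (Sd.mk (nat_lit 10) (nat_lit 8) (nat_lit 12) (nat_lit 1) (Sb.cons (nat_lit 0) (nat_lit 0) (nat_lit 1) Sb.nil) (Bl.c Y1_1_4_5 (nat_lit 4) (nat_lit 4) Bl.nil)) Sl.nil)))))))
noncomputable def SI1_2 : Nat := (nat_lit 0x300c0300c0200802004010000000000)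
noncomputable def SW1_2 : Nat := (nat_lit 0xc004001400600b00380080140010048018008000)
noncomputable def RV1_2 : Nat := (nat_lit 0x18200208a04f08a00c08a00e08a02618200808a02208a03008a03308a03a08a04108a045982006)
noncomputable def CO1_2 : Nat := (nat_lit 0x2a80102a7450288850280c50269c50265410241c500aa050082c5002b05002745000b85000141)
noncomputable def Y1_2_1_0 : Nat := (nat_lit 0x78003c001e000f)
noncomputable def Y1_2_2_3 : Nat := (nat_lit 0x1c000600018000c001c0006)
noncomputable def C1_2 : Cd := (Cd.mk (nat_lit 13) (nat_lit 7) (nat_lit 772) SI1_2 SW1_2 RV1_2 CO1_2 (Sl.cons (Sd.mk (nat_lit 0) (nat_lit 0) (nat_lit 0) (nat_lit 4) (Sb.cons (nat_lit 0) (nat_lit 0) (nat_lit 2) (Sb.cons (nat_lit 8) (nat_lit 2) (nat_lit 2) Sb.nil)) (Bl.c Y1_2_1_0 (nat_lit 4) (nat_lit 1) Bl.nil)) (Sl.cons (Sd.mk (nat_lit 2) (nat_lit 0) (nat_lit 4) (nat_lit 2) (Sb.cons (nat_lit 0) (nat_lit 0) (nat_lit 1) (Sb.cons (nat_lit 8) (nat_lit 1) (nat_lit 1) Sb.nil)) (Bl.r Y1_2_1_0 (nat_lit 0) Bl.nil)) (Sl.cons (Sd.mk (nat_lit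 9) (nat_lit 8) (nat_lit 6) (nat_lit 3) (Sb.cons (nat_lit 0) (nat_lit 0) (nat_lit 1) (Sb.cons (nat_lit 8) (nat_lit 1) (nat_lit 2) Sb.nil)) (Bl.r Y1_2_2_3 (nat_lit 3) Bl.nil)) (Sl.cons (Sd.mk (nat_lit 10) (nat_lit 8) (nat_lit 9) (nat_lit 4) (Sb.cons (nat_lit 0) (nat_lit 0) (nat_lit 2) (Sb.cons (nat_lit 8) (nat_lit 2) (nat_lit 2) Sb.nil)) (Bl.c Y1_2_2_3 (nat_lit 6) (nat_lit 2) Bl.nil)) Sl.nil)))))
noncomputable def SI1_3 : Nat := (nat_lit 0x400)
noncomputable def SW1_3 : Nat := (nat_lit 0x1)
noncomputable def RV1_3 : Nat := (nat_lit 0x8a00188a016)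
noncomputable def CO1_3 : Nat := (nat_lit 0x10045001105)
noncomputable def C1_3 : Cd := (Cd.mk (nat_lit 2) (nat_lit 9) (nat_lit 39) SI1_3 SW1_3 RV1_3 CO1_3 (Sl.cons (Sd.mk (nat_lit 0) (nat_lit 0) (nat_lit 0) (nat_lit 1) (Sb.cons (nat_lit 4) (nat_lit 0) (nat_lit 1) Sb.nil) Bl.nil) (Sl.cons (Sd.mk (nat_lit 4) (nat_lit 4) (nat_lit 1) (nat_lit 1) (Sb.cons (nat_lit 0) (nat_lit 0) (nat_lit 1) Sb.nil) Bl.nil) Sl.nil)))
noncomputable def C1_4 : Cd := (Cd.mk (nat_lit 0) (nat_lit 10) (nat_lit 265) (nat_lit 0) (nat_lit 0) (nat_lit 0) (nat_lit 0) Sl.nil)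
noncomputable def SI1_5 : Nat := (nat_lit 0x1c0701c0701c0701c0701c0701c07018060180601806018060180601806018060180601405014050140501405014040100401004010040100300c0300c0300c0300c03008020080200802008020080100401004010040100401004010000000000000000000000000)
noncomputable def SW1_5 : Nat := (nat_lit 0x1b80d805c02d013009403a01c00a004c01200801a80d006602c012008c04401b00d0048020011007803800e006029814808e046022806401a00c00281440a0044010808003000b002013c09c043021010405602a005000c09a04c02000fc064029001000400004b02500f807803d01d80e8062030014007c09204801c80e005e02700f005c02c015)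
noncomputable def RV1_5 : Nat := (nat_lit 0x8a03708a01408a00a18200320400b08a00b08a03508a01208a03608a01308a03408a01188a01d08a00920400108a00388a01808a00420400288a01b08a00788a01c88a01908a00808a00520400388a01a08a00608a05308a04b08a04d08a04920400408a01008a00d20400508a00f08a01f18200708a01e08a02110000308a02408a02508a02320400808a02808a02908a02720400608a02b10000508a02e08a02c08a04708a03e08a04008a03908a03d08a04308a00230600018200108a05208a04a08a04c08a04808a03208a02f20400908a03120400a08a04e08a05108a04608a03c08a03f08a03808a03b08a04208a04488a017b06001982005)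
noncomputable def CO1_5 : Nat := (nat_lit 0x3aac503a8c503a44503a4410396820394850392c50390c5038ac50388c50382c50380c50329c50328c50328020324450315850314850314820311c50310c50309c50309850308c50308850308820301c50300c502bb8502bb0502b34502b30502b0020290c50288850288820280c50279050279010271050255850255800251c50249c50241c5017a82017a05017245017205017202016645016640014ac50142c5013b85013b05013345013305012b0501274501004501004301004100bb8500bb0500b34500b30500b24500b20500b20200aa0500aa0200a745009785003b85003b05003345003305002b05002745001785001105001103001101)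
noncomputable def Y1_5_1_0 : Nat := (nat_lit 0x80000001e8000000720000001e8000000040000000100000000200000001000000782000000e00000003800000)
noncomputable def Y1_5_2_3 : Nat := (nat_lit 0x1e0000000780000001e0000000780000022000000088000000220000000740000002200000)
noncomputable def Y1_5_4_5 : Nat := (nat_lit 0x100000000400000001000000024000000f0000000000000000000000000000000)
noncomputable def Y1_5_6_6 : Nat := (nat_lit 0x1040000000a10000002840000000000001008400004021000000000000000100000000000000000000000100000004080000010200000000000000010000000)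
noncomputable def Y1_5_7_7 : Nat := (nat_lit 0x20000000000000000000000000000000020280000000000000180000000000000001a0000000000000001a00000000000000)
noncomputable def C1_5 : Cd := (Cd.mk (nat_lit 84) (nat_lit 4) (nat_lit 4369) SI1_5 SW1_5 RV1_5 CO1_5 (Sl.cons (Sd.mk (nat_lit 0) (nat_lit 0) (nat_lit 0) (nat_lit 10) (Sb.cons (nat_lit 4) (nat_lit 0) (nat_lit 4) (Sb.cons (nat_lit 8) (nat_lit 4) (nat_lit 2) (Sb.cons (nat_lit 12) (nat_lit 6) (nat_lit 4) Sb.nil))) (Bl.c Y1_5_1_0 (nat_lit 22) (nat_lit 1) Bl.nil)) (Sl.cons (Sd.mk (nat_lit 2) (nat_lit 0) (nat_lit 10) (nat_lit 11) (Sb.cons (nat_lit 4) (nat_lit 0) (nat_lit 1) (Sb.cons (nat_lit 8) (nat_lit 1) (nat_lit 3) (Sb.cons (nat_lit 12) (nat_lit 4) (nat_lit 7) Sb.nil))) (Bl.r Y1_5_1_0 (nat_lit 0) Bl.nil)) (Sl.cons (Sd.mk (nat_lit 4) (nat_lit 4) (nat_lit 21) (nat_lit 9) (Sb.cons (nat_lit 0) (nat_lit 0) (nat_lit 3) (Sb.cons (nat_lit 8) (nat_lit 3) (nat_lit 2) (Sb.cons (nat_lit 12) (nat_lit 5) (nat_lit 4) Sb.nil))) (Bl.r Y1_5_2_3 (nat_lit 3)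 Bl.nil)) (Sl.cons (Sd.mk (nat_lit 5) (nat_lit 4) (nat_lit 30) (nat_lit 9) (Sb.cons (nat_lit 0) (nat_lit 0) (nat_lit 2) (Sb.cons (nat_lit 8) (nat_lit 2) (nat_lit 2) (Sb.cons (nat_lit 12) (nat_lit 4) (nat_lit 5) Sb.nil))) (Bl.c Y1_5_2_3 (nat_lit 18) (nat_lit 2) Bl.nil)) (Sl.cons (Sd.mk (nat_lit 9) (nat_lit 8) (nat_lit 39) (nat_lit 8) (Sb.cons (nat_lit 0) (nat_lit 0) (nat_lit 2) (Sb.cons (nat_lit 4) (nat_lit 2) (nat_lit 3) (Sb.cons (nat_lit 12) (nat_lit 5) (nat_lit 3) Sb.nil))) (Bl.r Y1_5_4_5 (nat_lit 5) Bl.nil)) (Sl.cons (Sd.mk (nat_lit 10) (nat_lit 8) (nat_lit 47) (nat_lit 9) (Sb.cons (nat_lit 0) (nat_lit 0) (nat_lit 3) (Sb.cons (nat_lit 4) (nat_lit 3) (nat_lit 1) (Sb.cons (nat_lit 12) (nat_lit 4) (nat_lit 5) Sb.nil))) (Bl.c Y1_5_4_5 (nat_lit 16) (nat_lit 4) Bl.nil)) (Sl.cons (Sd.mk (nat_lit 12) (nat_lit 12) (nat_lit 56) (nat_lit 16) (Sb.cons (nat_lit 0) (nat_lit 0) (nat_lit 7) (Sb.cons (nat_lit 4) (nat_lit 7) (nat_lit 5) (Sb.cons (nat_lit 8) (nat_lit 12) (nat_lit 4) Sb.nil))) (Bl.r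 Y1_5_6_6 (nat_lit 6) (Bl.c Y1_5_6_6 (nat_lit 32) (nat_lit 6) Bl.nil))) (Sl.cons (Sd.mk (nat_lit 14) (nat_lit 12) (nat_lit 72) (nat_lit 12) (Sb.cons (nat_lit 0) (nat_lit 0) (nat_lit 4) (Sb.cons (nat_lit 4) (nat_lit 4) (nat_lit 4) (Sb.cons (nat_lit 8) (nat_lit 8) (nat_lit 4) Sb.nil))) (Bl.r Y1_5_7_7 (nat_lit 7) (Bl.c Y1_5_7_7 (nat_lit 24) (nat_lit 7) Bl.nil))) Sl.nil)))))))))
noncomputable def CL1 : Cl := (Cl.cons C1_0 (Cl.cons C1_1 (Cl.cons C1_2 (Cl.cons C1_3 (Cl.cons C1_4 (Cl.cons C1_5 Cl.nil))))))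
noncomputable def AL1_0 : Nat := (nat_lit 0x58cb9)
noncomputable def A41_0 : Nat := (nat_lit 0x18c81)
noncomputable def IX1_0 : Nat := (nat_lit 0x50000000000004000000000000000000000000000000000000000000000000000300000000000020000000000000000000000000000000000000010000000000000000000000000000000000000000000000000000000000000000000000000000000000000000000)
noncomputable def OL1_0 : Nat := (nat_lit 0x20003c005800a000e0000)
noncomputable def AL1_1 : Nat := (nat_lit 0x51236624f411)
noncomputable def A41_1 : Nat := (nat_lit 0x112064245411)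
noncomputable def IX1_1 : Nat := (nat_lit 0xc000000000000000000000000000000000000000000000000000b00000000000000000000000000000000000000a0000000000000000000000000000000000000000000000000000000000000000000000000000000000000000009000000000000800000000000000000000000000000000000000700000000000000000000000000000000000000000000000000000000000000006000000000000000000000000000000000000005000000000000000000000000000000000000000000000000000400000000000000000000000003000000000000000000000000020000000000000000000000000000000000000000000000000000000000000000000000000000010000000000000000000000000000000000000000000000000000)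
noncomputable def OL1_1 : Nat := (nat_lit 0xb00140025003c007400d001500240038006000a00080000)
noncomputable def AL1_2 : Nat := (nat_lit 0x77b83e)
noncomputable def A41_2 : Nat := (nat_lit 0x73983e)
noncomputable def IX1_2 : Nat := (nat_lit 0xc000000000000b000000000000a00000000000000000000000000000000000000900000000000080000000000007000000000000000000000000000000000000006000000000000500000000000000000000000000000000000000000000000000000000000000000000000000000400000000000030000000000002000000000000100000000000000000000000000)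
noncomputable def OL1_2 : Nat := (nat_lit 0x5800a801400220040007800c00160014002000300040004)
noncomputable def AL1_3 : Nat := (nat_lit 0x1cb4)
noncomputable def A41_3 : Nat := (nat_lit 0x84)
noncomputable def IX1_3 : Nat := (nat_lit 0x10000000000000000000000000000000000000000000000000000000000000000000000000000000000000000000)
noncomputable def OL1_3 : Nat := (nat_lit 0xe0008)
noncomputable def AL1_4 : Nat := (nat_lit 0)
noncomputable def A41_4 : Nat := (nat_lit 0)
noncomputable def IX1_4 : Nat := (nat_lit 0)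
noncomputable def OL1_4 : Nat := (nat_lit 0)
noncomputable def AL1_5 : Nat := (nat_lit 0xd3ad9fc001924e375b75fe4cd46e09ff150256fffffa55efff)
noncomputable def A41_5 : Nat := (nat_lit 0xc0a48fc0011202115b35e604d40a012f140252f9ef9a556cff)
noncomputable def IX1_5 : Nat := (nat_lit 0x53000000000005200000000000000000000000000000000000000000000000000000000000000000000000000000000000000000510000000000000000000000005000000000000000000000000000000000000004f00000000000000000000000000000000000004e000000000000000000000000000000000000000000000000004d000000000004c000000000004b000000000004a000000000004900000000000480000000000000000000000000000000000000000000000000000000000000000000000000000000000000000000000000000000000000000000000000000000000000000000000000000000000000000000000000000000000004700000000000000000000000000000000000000000000000000460000000000000000000000000000000000000450000000000000000000000000000000000000000000000000000000000000000000000000000000000000000000000000000004400000000000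00000000000000000000000000000000000000000000000000004300000000000000000000000000000000000000000000000000420000000000000000000000004100000000000000000000000040000000000003f0000000000000000000000003e000000000003d00000000000000000000000000000000000003c000000000003b0000000000000000000000003a00000000000000000000000039000000000003800000000000370000000000036000000000000000000000000000000000000035000000000003400000000000000000000000000000000000000000000000000000000000000000000000000000000000000000330000000000000000000000000000000000000320000000000031000000000000000000000000300000000000000000000000002f000000000000000000000000000000000000000000000000000000000000000000000000000000000000000002e0000000000000000000000002d00000000000000000000000000000000000000000000000000000000000000000000000000000000000000000000000000000000000000000002c00000000000000000000000000000000000002b0000000000000000000000002a00000000000290000000000028000000000002700000000000000000000000000000000000000000000000000260000000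00000000000000000250000000000000000000000000000000000000000000000000000000000000000000000000000000000000000000000000000000000000000000240000000000000000000000000000000000000230000000000000000000000002200000000000000000000000000000000000002100000000000000000000000020000000000001f000000000001e000000000001d000000000001c00000000000000000000000000000000000001b000000000001a0000000000019000000000001800000000000000000000000017000000000001600000000000150000000000014000000000001300000000000000000000000000000000000001200000000000110000000000000000000000001000000000000000000000000000000000000000f0000000000000000000000000e0000000000000000000000000d0000000000000000000000000c0000000000000000000000000b000000000000a0000000000000000000000000900000000000080000000000000000000000000000000000000070000000000006000000000000500000000000040000000000003000000000000200000000000010000000000000)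
noncomputable def OL1_5 : Nat := (nat_lit 0x6380c6017e02f405d00b7016602c805880b0015e02b8050009c013202440460088010c02100418081010001f403e007a00f001dc03b007500e401c4035006700cc0190031005b00b20140026804b009401240240044008400e401b0034006200bc017002d005800ac0140027004c009401180220042008000f801c0036006400b001400240040007000d001600280038006000a0010001800200020000)
noncomputable def TL1 : Tl := (Tl.cons (Tr.mk AL1_0 A41_0 IX1_0 OL1_0) (Tl.cons (Tr.mk AL1_1 A41_1 IX1_1 OL1_1) (Tl.cons (Tr.mk AL1_2 A41_2 IX1_2 OL1_2) (Tl.cons (Tr.mk AL1_3 A41_3 IX1_3 OL1_3) (Tl.cons (Tr.mk AL1_4 A41_4 IX1_4 OL1_4) (Tl.cons (Tr.mk AL1_5 A41_5 IX1_5 OL1_5) Tl.nil))))))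
noncomputable def ZL1_0 : Zl := (Zl.cons (nat_lit 0) (nat_lit 0) (nat_lit 6) (Zl.cons (nat_lit 0) (nat_lit 0) (nat_lit 13) (Zl.cons (nat_lit 0) (nat_lit 0) (nat_lit 13) (Zl.cons (nat_lit 0) (nat_lit 0) (nat_lit 2) (Zl.cons (nat_lit 0) (nat_lit 0) (nat_lit 0) (Zl.cons (nat_lit 0) (nat_lit 0) (nat_lit 84) Zl.nil))))))
noncomputable def ZZ1 : ZZ := (ZZ.cons ZL1_0 ZZ.nil)
noncomputable def C2_0 : Cd := (Cd.mk (nat_lit 0) (nat_lit 5) (nat_lit 320) (nat_lit 0) (nat_lit 0) (nat_lit 0) (nat_lit 0) Sl.nil)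
noncomputable def C2_1 : Cd := (Cd.mk (nat_lit 0) (nat_lit 6) (nat_lit 546) (nat_lit 0) (nat_lit 0) (nat_lit 0) (nat_lit 0) Sl.nil)
noncomputable def C2_2 : Cd := (Cd.mk (nat_lit 0) (nat_lit 7) (nat_lit 772) (nat_lit 0) (nat_lit 0) (nat_lit 0) (nat_lit 0) Sl.nil)
noncomputable def C2_3 : Cd := (Cd.mk (nat_lit 0) (nat_lit 9) (nat_lit 39) (nat_lit 0) (nat_lit 0) (nat_lit 0) (nat_lit 0) Sl.nil)
noncomputable def C2_4 : Cd := (Cd.mk (nat_lit 0) (nat_lit 10) (nat_lit 265) (nat_lit 0) (nat_lit 0) (nat_lit 0) (nat_lit 0) Sl.nil)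
noncomputable def C2_5 : Cd := (Cd.mk (nat_lit 0) (nat_lit 4) (nat_lit 4369) (nat_lit 0) (nat_lit 0) (nat_lit 0) (nat_lit 0) Sl.nil)
noncomputable def CL2 : Cl := (Cl.cons C2_0 (Cl.cons C2_1 (Cl.cons C2_2 (Cl.cons C2_3 (Cl.cons C2_4 (Cl.cons C2_5 Cl.nil))))))
noncomputable def AL2_0 : Nat := (nat_lit 0)
noncomputable def A42_0 : Nat := (nat_lit 0)
noncomputable def IX2_0 : Nat := (nat_lit 0)
noncomputable def OL2_0 : Nat := (nat_lit 0)
noncomputable def AL2_1 : Nat := (nat_lit 0)
noncomputable def A42_1 : Nat := (nat_lit 0)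
noncomputable def IX2_1 : Nat := (nat_lit 0)
noncomputable def OL2_1 : Nat := (nat_lit 0)
noncomputable def AL2_2 : Nat := (nat_lit 0xfff)
noncomputable def A42_2 : Nat := (nat_lit 0)
noncomputable def IX2_2 : Nat := (nat_lit 0)
noncomputable def OL2_2 : Nat := (nat_lit 0)
noncomputable def AL2_3 : Nat := (nat_lit 0)
noncomputable def A42_3 : Nat := (nat_lit 0)
noncomputable def IX2_3 : Nat := (nat_lit 0)
noncomputable def OL2_3 : Nat := (nat_lit 0)
noncomputable def AL2_4 : Nat := (nat_lit 0)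
noncomputable def A42_4 : Nat := (nat_lit 0)
noncomputable def IX2_4 : Nat := (nat_lit 0)
noncomputable def OL2_4 : Nat := (nat_lit 0)
noncomputable def AL2_5 : Nat := (nat_lit 0)
noncomputable def A42_5 : Nat := (nat_lit 0)
noncomputable def IX2_5 : Nat := (nat_lit 0)
noncomputable def OL2_5 : Nat := (nat_lit 0)
noncomputable def TL2 : Tl := (Tl.cons (Tr.mk AL2_0 A42_0 IX2_0 OL2_0) (Tl.cons (Tr.mk AL2_1 A42_1 IX2_1 OL2_1) (Tl.cons (Tr.mk AL2_2 A42_2 IX2_2 OL2_2) (Tl.cons (Tr.mk AL2_3 A42_3 IX2_3 OL2_3) (Tl.cons (Tr.mk AL2_4 A42_4 IX2_4 OL2_4) (Tl.cons (Tr.mk AL2_5 A42_5 IX2_5 OL2_5) Tl.nil))))))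
def wf0_0 : wfC (nat_lit 44) (nat_lit 2) C0_0 = true := by decide +kernel
def pl0_0 : plCk (nat_lit 44) (nat_lit 2) (nat_lit 11) (nat_lit 0) (nat_lit 0) (nat_lit 7) (nat_lit 6) (nat_lit 4) (nat_lit 0) nl0 CL0 = true := by decide +kernel
def wf0_1 : wfC (nat_lit 44) (nat_lit 2) C0_1 = true := by decide +kernel
def pl0_1 : plCk (nat_lit 44) (nat_lit 2) (nat_lit 11) (nat_lit 0) (nat_lit 0) (nat_lit 7) (nat_lit 6) (nat_lit 4) (nat_lit 1) nl0 CL0 = true := by decide +kernel
def wf0_2 : wfC (nat_lit 44) (nat_lit 2) C0_2 = true := by decide +kernel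
def pl0_2 : plCk (nat_lit 44) (nat_lit 2) (nat_lit 11) (nat_lit 0) (nat_lit 0) (nat_lit 7) (nat_lit 6) (nat_lit 4) (nat_lit 2) nl0 CL0 = true := by decide +kernel
def wf0_3 : wfC (nat_lit 44) (nat_lit 2) C0_3 = true := by decide +kernel
def pl0_3 : plCk (nat_lit 44) (nat_lit 2) (nat_lit 11) (nat_lit 0) (nat_lit 0) (nat_lit 7) (nat_lit 6) (nat_lit 4) (nat_lit 3) nl0 CL0 = true := by decide +kernel
def wf0_4 : wfC (nat_lit 44) (nat_lit 2) C0_4 = true := by decide +kernel
def pl0_4 : plCk (nat_lit 44) (nat_lit 2) (nat_lit 11) (nat_lit 0) (nat_lit 0) (nat_lit 7) (nat_lit 6) (nat_lit 4) (nat_lit 4) nl0 CL0 = true := by decide +kernel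
def wf0_5 : wfC (nat_lit 44) (nat_lit 2) C0_5 = true := by decide +kernel
def pl0_5 : plCk (nat_lit 44) (nat_lit 2) (nat_lit 11) (nat_lit 0) (nat_lit 0) (nat_lit 7) (nat_lit 6) (nat_lit 4) (nat_lit 5) nl0 CL0 = true := by decide +kernel
def ti0_0 : tileCk (nat_lit 44) (nat_lit 2) (nat_lit 1) (nat_lit 1) (nat_lit 29) (nat_lit 11) (nat_lit 6) ZL0_0 CL0 = true := by decide +kernel
def zl0_0 : zlOK (nat_lit 29) ZL0_0 = true := by decide +kernel
def tc0_0 : tiCov (nat_lit 1) (nat_lit 0) ZZ0 C0_0 = true := by decide +kernel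
def tc0_1 : tiCov (nat_lit 1) (nat_lit 1) ZZ0 C0_1 = true := by decide +kernel
def tc0_2 : tiCov (nat_lit 1) (nat_lit 2) ZZ0 C0_2 = true := by decide +kernel
def tc0_3 : tiCov (nat_lit 1) (nat_lit 3) ZZ0 C0_3 = true := by decide +kernel
def tc0_4 : tiCov (nat_lit 1) (nat_lit 4) ZZ0 C0_4 = true := by decide +kernel
def tc0_5 : tiCov (nat_lit 1) (nat_lit 5) ZZ0 C0_5 = true := by decide +kernel
def wf1_0 : wfC (nat_lit 17) (nat_lit 2) C1_0 = true := by decide +kernel
def rf1_0 : rfCk (nat_lit 44) (nat_lit 2) (nat_lit 17) (nat_lit 2) (nat_lit 9) (nat_lit 0) (nat_lit 0) TL1 CL0 CL1 = true := by decide +kernel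
def st1_0_0 : starCk (nat_lit 17) (nat_lit 2) (nat_lit 1) (nat_lit 1) (nat_lit 2) (nat_lit 4) (nat_lit 256) C1_0 = true := by decide +kernel
def sc1_0 : stCov (nat_lit 2) (nat_lit 4) (Rl.cons (nat_lit 4) (nat_lit 2) Rl.nil) C1_0 = true := by decide +kernel
def wf1_1 : wfC (nat_lit 17) (nat_lit 2) C1_1 = true := by decide +kernel
def rf1_1 : rfCk (nat_lit 44) (nat_lit 2) (nat_lit 17) (nat_lit 2) (nat_lit 9) (nat_lit 0) (nat_lit 1) TL1 CL0 CL1 = true := by decide +kernel
def st1_1_0 : starCk (nat_lit 17) (nat_lit 2) (nat_lit 1) (nat_lit 1) (nat_lit 2) (nat_lit 5) (nat_lit 16) C1_1 = true := by decide +kernel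
def sc1_1 : stCov (nat_lit 1) (nat_lit 5) (Rl.cons (nat_lit 5) (nat_lit 2) Rl.nil) C1_1 = true := by decide +kernel
def wf1_2 : wfC (nat_lit 17) (nat_lit 2) C1_2 = true := by decide +kernel
def rf1_2 : rfCk (nat_lit 44) (nat_lit 2) (nat_lit 17) (nat_lit 2) (nat_lit 9) (nat_lit 0) (nat_lit 2) TL1 CL0 CL1 = true := by decide +kernel
def st1_2_0 : starCk (nat_lit 17) (nat_lit 2) (nat_lit 1) (nat_lit 1) (nat_lit 2) (nat_lit 4) (nat_lit 1) C1_2 = true := by decide +kernel
def sc1_2 : stCov (nat_lit 0) (nat_lit 4) (Rl.cons (nat_lit 4) (nat_lit 2) Rl.nil) C1_2 = true := by decide +kernel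
def wf1_3 : wfC (nat_lit 17) (nat_lit 2) C1_3 = true := by decide +kernel
def rf1_3 : rfCk (nat_lit 44) (nat_lit 2) (nat_lit 17) (nat_lit 2) (nat_lit 9) (nat_lit 0) (nat_lit 3) TL1 CL0 CL1 = true := by decide +kernel
def sc1_3 : stCov (nat_lit 0) (nat_lit 0) Rl.nil C1_3 = true := by decide +kernel
def wf1_5 : wfC (nat_lit 17) (nat_lit 2) C1_5 = true := by decide +kernel
def rf1_5 : rfCk (nat_lit 44) (nat_lit 2) (nat_lit 17) (nat_lit 2) (nat_lit 9) (nat_lit 0) (nat_lit 5) TL1 CL0 CL1 = true := by decide +kernel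
def st1_5_0 : starCk (nat_lit 17) (nat_lit 2) (nat_lit 1) (nat_lit 1) (nat_lit 8) (nat_lit 39) (nat_lit 256) C1_5 = true := by decide +kernel
def sc1_5 : stCov (nat_lit 2) (nat_lit 39) (Rl.cons (nat_lit 39) (nat_lit 8) Rl.nil) C1_5 = true := by decide +kernel
def sc0_0 : stCov (nat_lit 1) (nat_lit 0) (Rl.cons (nat_lit 0) (nat_lit 19) Rl.nil) C0_0 = true := by decide +kernel
def sc0_1 : stCov (nat_lit 0) (nat_lit 0) (Rl.cons (nat_lit 0) (nat_lit 52) Rl.nil) C0_1 = true := by decide +kernel
def sc0_2 : stCov (nat_lit 0) (nat_lit 0) (Rl.cons (nat_lit 0) (nat_lit 24) Rl.nil) C0_2 = true := by decide +kernel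
def sc0_3 : stCov (nat_lit 0) (nat_lit 0) (Rl.cons (nat_lit 0) (nat_lit 13) Rl.nil) C0_3 = true := by decide +kernel
def sc0_4 : stCov (nat_lit 0) (nat_lit 0) (Rl.cons (nat_lit 0) (nat_lit 10) Rl.nil) C0_4 = true := by decide +kernel
def sc0_5 : stCov (nat_lit 0) (nat_lit 0) (Rl.cons (nat_lit 0) (nat_lit 200) Rl.nil) C0_5 = true := by decide +kernel
def wf1_4 : wfC (nat_lit 17) (nat_lit 2) C1_4 = true := by decide +kernel
def rf1_4 : rfCk (nat_lit 44) (nat_lit 2) (nat_lit 17) (nat_lit 2) (nat_lit 9) (nat_lit 0) (nat_lit 4) TL1 CL0 CL1 = true := by decide +kernel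
def zl1_0 : zlOK (nat_lit 84) ZL1_0 = true := by decide +kernel
def sc1_4 : stCov (nat_lit 0) (nat_lit 0) Rl.nil C1_4 = true := by decide +kernel
def tc1_0 : tiCov (nat_lit 1) (nat_lit 0) ZZ1 C1_0 = true := by decide +kernel
def tc1_1 : tiCov (nat_lit 1) (nat_lit 1) ZZ1 C1_1 = true := by decide +kernel
def tc1_2 : tiCov (nat_lit 1) (nat_lit 2) ZZ1 C1_2 = true := by decide +kernel
def tc1_3 : tiCov (nat_lit 1) (nat_lit 3) ZZ1 C1_3 = true := by decide +kernel
def tc1_4 : tiCov (nat_lit 1) (nat_lit 4) ZZ1 C1_4 = true := by decide +kernel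
def tc1_5 : tiCov (nat_lit 1) (nat_lit 5) ZZ1 C1_5 = true := by decide +kernel
def wf2_0 : wfC (nat_lit 1) (nat_lit 1) C2_0 = true := by decide +kernel
def wf2_1 : wfC (nat_lit 1) (nat_lit 1) C2_1 = true := by decide +kernel
def wf2_2 : wfC (nat_lit 1) (nat_lit 1) C2_2 = true := by decide +kernel
def wf2_3 : wfC (nat_lit 1) (nat_lit 1) C2_3 = true := by decide +kernel
def wf2_4 : wfC (nat_lit 1) (nat_lit 1) C2_4 = true := by decide +kernel
def wf2_5 : wfC (nat_lit 1) (nat_lit 1) C2_5 = true := by decide +kernel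
def rf2_0 : rfCk (nat_lit 17) (nat_lit 2) (nat_lit 1) (nat_lit 1) (nat_lit 9) (nat_lit 0) (nat_lit 0) TL2 CL1 CL2 = true := by decide +kernel
def rf2_1 : rfCk (nat_lit 17) (nat_lit 2) (nat_lit 1) (nat_lit 1) (nat_lit 9) (nat_lit 0) (nat_lit 1) TL2 CL1 CL2 = true := by decide +kernel
def rf2_2 : rfCk (nat_lit 17) (nat_lit 2) (nat_lit 1) (nat_lit 1) (nat_lit 9) (nat_lit 0) (nat_lit 2) TL2 CL1 CL2 = true := by decide +kernel
def rf2_3 : rfCk (nat_lit 17) (nat_lit 2) (nat_lit 1) (nat_lit 1) (nat_lit 9) (nat_lit 0) (nat_lit 3) TL2 CL1 CL2 = true := by decide +kernel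
def rf2_4 : rfCk (nat_lit 17) (nat_lit 2) (nat_lit 1) (nat_lit 1) (nat_lit 9) (nat_lit 0) (nat_lit 4) TL2 CL1 CL2 = true := by decide +kernel
def rf2_5 : rfCk (nat_lit 17) (nat_lit 2) (nat_lit 1) (nat_lit 1) (nat_lit 9) (nat_lit 0) (nat_lit 5) TL2 CL1 CL2 = true := by decide +kernel
def de2_0 : deadCk (nat_lit 1) (nat_lit 1) C2_0 = true := by decide +kernel
def de2_1 : deadCk (nat_lit 1) (nat_lit 1) C2_1 = true := by decide +kernel
def de2_2 : deadCk (nat_lit 1) (nat_lit 1) C2_2 = true := by decide +kernel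
def de2_3 : deadCk (nat_lit 1) (nat_lit 1) C2_3 = true := by decide +kernel
def de2_4 : deadCk (nat_lit 1) (nat_lit 1) C2_4 = true := by decide +kernel
def de2_5 : deadCk (nat_lit 1) (nat_lit 1) C2_5 = true := by decide +kernel

end Pool.Agent.NNr.R11_4_9_10
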